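import Mathlib
import Pool.Agent.Helper12_FV.Point
import Pool.Agent.Helper26_RS.Line

set_option autoImplicit false

/-!
# Lines on the generator on which everything stays in general position

Version for abstract classes of polynomials (edit of `Helper26_RS/Line.lean`).
-/

namespace Pool.Agent.PXE.H82

open Polynomial Pool.Agent Pool.Agent.UO Pool.Agent.Helper12_FV Pool.Agent.Helper26_RS

/-- The resultant on the lines of the generator is not identically zero. -/
def ResHit {n : ℕ} (t1 t2 : ℕ) (f g : MvPolynomial (Fin n) ℤ) : Prop :=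
  ∃ (w1 z1 : Fin t1 → ℤ) (w2 z2 : Fin t2 → ℤ),
    resultant (onl (fun s : Fin n => point n w2 z2 (s : ℕ))
        (fun s : Fin n => point n w1 z1 (s : ℕ)) f)
      (onl (fun s : Fin n => point n w2 z2 (s : ℕ)) (fun s : Fin n => point n w1 z1 (s : ℕ)) g)
      f.totalDegree g.totalDegree ≠ 0

lemma hit_of_int {n t : ℕ} {Q : MvPolynomial (Fin n) ℤ} (w z : Fin t → ℤ)
    (h : MvPolynomial.eval (fun s : Fin n => point n w z (s : ℕ)) Q ≠ 0) : Hit t Q := by
  intro h0
  apply h
  have h1 := eval_genE (Sum.elim w z) Q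
  rw [h0] at h1
  simp only [Sum.elim_inl, Sum.elim_inr, MvPolynomial.eval₂_zero] at h1
  have h2 : (Int.castRingHom ℤ) = RingHom.id ℤ := Subsingleton.elim _ _
  rw [h2] at h1
  exact h1.symm

section dual

variable {n : ℕ}

/-- The resultant along the line through `α` in the generic direction. -/
noncomputable def rhb (α : Fin n → ℤ) (f g : MvPolynomial (Fin n) ℤ) : MvPolynomial (Fin n) ℤ :=
  resultant (onl (fun s => MvPolynomial.C (α s)) (fun s => MvPolynomial.X s) f)
    (onl (fun s => MvPolynomial.C (α s)) (fun s => MvPolynomial.X s) g) f.totalDegree g.totalDegree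

lemma eval_rhb (α β : Fin n → ℤ) (f g : MvPolynomial (Fin n) ℤ) :
    MvPolynomial.eval β (rhb α f g) =
      resultant (onl α β f) (onl α β g) f.totalDegree g.totalDegree := by
  unfold rhb
  have h2 : (fun s : Fin n => MvPolynomial.eval β (MvPolynomial.X s)) = β := by
    funext s; simp
  have h3 : (fun s : Fin n => MvPolynomial.eval β (MvPolynomial.C (α s))) = α := by
    funext s; simp
  rw [← resultant_map_map, map_onl, map_onl, h2, h3]

lemma CB_onl' (α : Fin n → ℤ) (f : MvPolynomial (Fin n) ℤ) :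
    CB f.totalDegree (onl (fun s => MvPolynomial.C (α s)) (fun s => MvPolynomial.X s) f) := by
  rw [onl_eq_sum]
  apply CB.sum
  intro d hd
  have h1 : CB (n := n) 0 (Polynomial.C (((f.coeff d : ℤ) : MvPolynomial (Fin n) ℤ))) := by
    apply CB.C
    have : ((f.coeff d : ℤ) : MvPolynomial (Fin n) ℤ) = MvPolynomial.C (f.coeff d) := by simp
    rw [this, MvPolynomial.totalDegree_C]
  have h2 : CB (n := n) (∑ s, d s * 1) (∏ s, (Polynomial.C (MvPolynomial.C (α s)) +
      Polynomial.C (MvPolynomial.X s) * X) ^ d s) := by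
    apply CB.prod
    intro s
    apply CB.pow
    intro i
    rw [coeff_add, coeff_C, coeff_C_mul, coeff_X]
    refine (MvPolynomial.totalDegree_add _ _).trans (max_le ?_ ?_)
    · split_ifs
      · rw [MvPolynomial.totalDegree_C]; exact Nat.zero_le _
      · simp
    · split_ifs
      · rw [mul_one, MvPolynomial.totalDegree_X]
      · simp
  refine (h1.mul h2).mono ?_
  rw [zero_add]
  simp only [mul_one]
  have := MvPolynomial.le_totalDegree hd
  rwa [Finsupp.sum_fintype _ _ (fun _ => rfl)] at this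

lemma totalDegree_rhb_le (α : Fin n → ℤ) (f g : MvPolynomial (Fin n) ℤ) (D : ℕ)
    (hf : f.totalDegree ≤ D) (hg : g.totalDegree ≤ D) :
    (rhb α f g).totalDegree ≤ 2 * D * D := by
  unfold rhb resultant
  refine (totalDegree_det_le (D := D) _ ?_).trans ?_
  · intro i j
    apply entry_sylvester (fun x : MvPolynomial (Fin n) ℤ => x.totalDegree ≤ D)
    · simp
    · intro i; exact (CB_onl' α f i).trans hf
    · intro i; exact (CB_onl' α g i).trans hg
  · apply Nat.mul_le_mul_right
    omega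

end dual

theorem exists_line_eng {n : ℕ} (m D T DH t1 t2 : ℕ) (f : Fin m → MvPolynomial (Fin n) ℤ)
    (hdeg1 : ∀ j, 1 ≤ (f j).totalDegree) (hdegD : ∀ j, (f j).totalDegree ≤ D)
    (hT : ∑ j, (f j).totalDegree ≤ T) (htop : ∀ j, Hit t1 (topp (f j)))
    (hval : ∀ j, Hit t2 (f j)) (hcop : ∀ j j', j ≠ j' → ResHit t1 t2 (f j) (f j'))
    (H : MvPolynomial (Fin n) ℤ) (hH : Hit t2 H) (hDH : H.totalDegree ≤ DH) :
    ∃ (w1 z1 : Fin t1 → ℕ) (w2 z2 : Fin t2 → ℕ),
      (∀ j, w1 j ≤ n * (T + T * T * (2 * D * D) + DH)) ∧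
      (∀ j, z1 j ≤ n * (T + T * T * (2 * D * D) + DH)) ∧
      (∀ j, w2 j ≤ n * (T + T * T * (2 * D * D) + DH)) ∧
      (∀ j, z2 j ≤ n * (T + T * T * (2 * D * D) + DH)) ∧
      (∀ j, MvPolynomial.eval (ipt n w2 z2) (f j) ≠ 0) ∧
      (∀ j, MvPolynomial.eval (ipt n w1 z1) (topp (f j)) ≠ 0) ∧
      MvPolynomial.eval (ipt n w2 z2) H ≠ 0 ∧ ∀ j j', j ≠ j' →
        resultant (onl (ipt n w2 z2) (ipt n w1 z1) (f j)) (onl (ipt n w2 z2) (ipt n w1 z1) (f j'))
          (f j).totalDegree (f j').totalDegree ≠ 0 := by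
  classical
  have hmT : m ≤ T := by
    refine le_trans ?_ hT
    calc m = ∑ j : Fin m, 1 := by simp
      _ ≤ ∑ j, (f j).totalDegree := Finset.sum_le_sum fun j _ => hdeg1 j
  have hoff : (Finset.univ : Finset (Fin m)).offDiag.card ≤ T * T := by
    rw [Finset.offDiag_card, Finset.card_univ, Fintype.card_fin]
    exact (Nat.sub_le _ _).trans (Nat.mul_le_mul hmT hmT)
  -- the point for each pair
  have hex : ∀ jj : Fin m × Fin m, ∃ α : Fin n → ℤ, jj.1 ≠ jj.2 →
      (∃ w2 z2 : Fin t2 → ℤ, α = fun s : Fin n => point n w2 z2 (s : ℕ)) ∧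
      Hit t1 (rhb α (f jj.1) (f jj.2)) := by
    intro jj
    by_cases h : jj.1 = jj.2
    · exact ⟨0, fun h' => absurd h h'⟩
    · obtain ⟨w1, z1, w2, z2, hne⟩ := hcop _ _ h
      refine ⟨fun s : Fin n => point n w2 z2 (s : ℕ), fun _ => ⟨⟨w2, z2, rfl⟩, ?_⟩⟩
      apply hit_of_int w1 z1
      rw [eval_rhb]
      exact hne
  choose α0 hα0 using hex
  obtain ⟨w1, z1, hw1, hz1, hβ⟩ := ((Hit.prod (t := t1) Finset.univ (P := fun j => topp (f j))
    fun j _ => htop j).mul
    (Hit.prod (t := t1) (Finset.univ : Finset (Fin m)).offDiag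
      (P := fun jj => rhb (α0 jj) (f jj.1) (f jj.2)) fun jj hjj =>
        (hα0 jj (Finset.mem_offDiag.1 hjj).2.2).2)).exists_point
    (T + T * T * (2 * D * D) + DH) (by
      have h1 : (∏ j, topp (f j)).totalDegree ≤ T := by
        refine (MvPolynomial.totalDegree_finsetProd _ _).trans ?_
        exact (Finset.sum_le_sum fun j _ => totalDegree_topp_le (f j)).trans hT
      have h2 : (∏ jj ∈ (Finset.univ : Finset (Fin m)).offDiag,
          rhb (α0 jj) (f jj.1) (f jj.2)).totalDegree ≤ T * T * (2 * D * D) := by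
        refine (MvPolynomial.totalDegree_finsetProd _ _).trans ?_
        refine (Finset.sum_le_sum fun jj _ =>
          totalDegree_rhb_le (α0 jj) _ _ D (hdegD jj.1) (hdegD jj.2)).trans ?_
        rw [Finset.sum_const, smul_eq_mul]
        exact Nat.mul_le_mul_right _ hoff
      have h4 := MvPolynomial.totalDegree_mul (∏ j, topp (f j))
        (∏ jj ∈ (Finset.univ : Finset (Fin m)).offDiag, rhb (α0 jj) (f jj.1) (f jj.2))
      omega)
  obtain ⟨β, hβdef⟩ : ∃ β : Fin n → ℤ, β = ipt n w1 z1 := ⟨_, rfl⟩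
  rw [map_mul, map_prod, map_prod] at hβ
  have hβ' : ∀ j, MvPolynomial.eval β (topp (f j)) ≠ 0 := by
    intro j
    rw [hβdef]
    exact Finset.prod_ne_zero_iff.1 (left_ne_zero_of_mul hβ) j (Finset.mem_univ j)
  have hρ : ∀ jj ∈ (Finset.univ : Finset (Fin m)).offDiag,
      Hit t2 (rho β (f jj.1) (f jj.2)) := by
    intro jj hjj
    obtain ⟨⟨w2, z2, hα⟩, -⟩ := hα0 jj (Finset.mem_offDiag.1 hjj).2.2
    apply hit_of_int w2 z2
    rw [← hα, eval_rho, ← eval_rhb, hβdef]
    exact Finset.prod_ne_zero_iff.1 (right_ne_zero_of_mul hβ) jj hjj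
  obtain ⟨w2, z2, hw2, hz2, hα⟩ := ((((Hit.prod (t := t2) Finset.univ (P := fun j => f j)
    fun j _ => hval j).mul
    (Hit.prod (t := t2) (Finset.univ : Finset (Fin m)).offDiag
      (P := fun jj => rho β (f jj.1) (f jj.2)) hρ))).mul hH).exists_point
    (T + T * T * (2 * D * D) + DH) (by
      have h1 : (∏ j, f j).totalDegree ≤ T :=
        (MvPolynomial.totalDegree_finsetProd _ _).trans hT
      have h2 : (∏ jj ∈ (Finset.univ : Finset (Fin m)).offDiag,
          rho β (f jj.1) (f jj.2)).totalDegree ≤ T * T * (2 * D * D) := by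
        refine (MvPolynomial.totalDegree_finsetProd _ _).trans ?_
        refine (Finset.sum_le_sum fun jj _ =>
          totalDegree_rho_le β _ _ D (hdegD jj.1) (hdegD jj.2)).trans ?_
        rw [Finset.sum_const, smul_eq_mul]
        exact Nat.mul_le_mul_right _ hoff
      have h3 := MvPolynomial.totalDegree_mul ((∏ j, f j) *
        (∏ jj ∈ (Finset.univ : Finset (Fin m)).offDiag, rho β (f jj.1) (f jj.2))) H
      have h4 := MvPolynomial.totalDegree_mul (∏ j, f j)
        (∏ jj ∈ (Finset.univ : Finset (Fin m)).offDiag, rho β (f jj.1) (f jj.2))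
      omega)
  rw [map_mul, map_mul, map_prod, map_prod] at hα
  refine ⟨w1, z1, w2, z2, hw1, hz1, hw2, hz2, ?_, ?_, right_ne_zero_of_mul hα, ?_⟩
  · intro j
    exact Finset.prod_ne_zero_iff.1 (left_ne_zero_of_mul (left_ne_zero_of_mul hα)) j
      (Finset.mem_univ j)
  · intro j
    rw [← hβdef]
    exact hβ' j
  · intro j j' hjj
    have h1 := Finset.prod_ne_zero_iff.1 (right_ne_zero_of_mul (left_ne_zero_of_mul hα)) (j, j')
      (Finset.mem_offDiag.2 ⟨Finset.mem_univ _, Finset.mem_univ _, hjj⟩)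
    rw [eval_rho] at h1
    rw [← hβdef]
    exact h1

end Pool.Agent.PXE.H82
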