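import Mathlib
import Pool.Agent.Helper12_FV.General
import Pool.Agent.Helper82_PXE.Hit

set_option autoImplicit false
set_option linter.unusedSectionVars false

/-!
# The hitting theorem for abstract classes of base polynomials (edit of `Helper26_RS/General.lean`)
-/

namespace Pool.Agent.PXE.H82

open Polynomial Pool.Agent Pool.Agent.UO Pool.Agent.Helper12_FV Pool.Agent.Helper12_D3
  Pool.Agent.Helper26_RS

/-- A class `P` of base polynomials and a class `PA` of numerators for which everything works with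
`t1` blocks for the direction and `t2` blocks for the point, for algebraic rank at most `k`. -/
structure Eng (k t1 t2 : ℕ) (P PA : ∀ n : ℕ, MvPolynomial (Fin n) ℤ → Prop) : Prop where
  top : ∀ (n : ℕ) (f : MvPolynomial (Fin n) ℤ), P n f → f ≠ 0 → Hit t1 (topp f)
  val : ∀ (n : ℕ) (f : MvPolynomial (Fin n) ℤ), P n f → f ≠ 0 → Hit t2 f
  res : ∀ (n : ℕ) (f g : MvPolynomial (Fin n) ℤ), P n f → P n g → 1 ≤ f.totalDegree →
    1 ≤ g.totalDegree → IsRelPrime f g → ResHit t1 t2 f g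
  unit : ∀ (n : ℕ) (a u : MvPolynomial (Fin n) ℤ), PA n a → IsUnit u → PA n (a * u)
  pit : ∀ (n N m : ℕ) (A : Fin N → MvPolynomial (Fin n) ℤ) (f : Fin m → MvPolynomial (Fin n) ℤ),
    (∀ i, PA n (A i)) → (∀ j, P n (f j)) → (∀ j, f j ≠ 0) →
    ∀ (I : Finset (Fin N)) (e : Fin N → Fin m → ℕ) (e0 : Fin m → ℕ) (r : Fin N → Fin m → ℕ),
      (∀ i ∈ I, ∀ j, e i j = e0 j + r i j) →
      (∀ v : Fin (k + 1) → Fin N, (∀ a, v a ∈ I) →
        ¬ AlgebraicIndependent ℤ fun a => A (v a) * ∏ j, f j ^ e (v a) j) →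
      ∑ i ∈ I, A i * ∏ j, f j ^ r i j ≠ 0 → Hit t2 (∑ i ∈ I, A i * ∏ j, f j ^ r i j)

theorem exists_hit_general_eng {n : ℕ} (m k κ0 D T b c ε B t1 t2 DD : ℕ)
    {P PA : ∀ n : ℕ, MvPolynomial (Fin n) ℤ → Prop} (eng : Eng κ0 t1 t2 P PA)
    (f : Fin m → MvPolynomial (Fin n) ℤ)
    (A : Fin k → MvPolynomial (Fin n) ℤ) (e : Fin k → Fin m → ℕ)
    (hprim : ∀ j, ∀ z : ℤ, MvPolynomial.C z ∣ f j → IsUnit z)
    (hPf : ∀ j, ∀ g, g ∣ f j → P n g) (hPA : ∀ i, PA n (A i))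
    (hdegD : ∀ j, (f j).totalDegree ≤ D) (hAD : ∀ i, (A i).totalDegree ≤ D)
    (hflen : ∀ j, len (f j) ≤ 2 ^ b) (hAlen : ∀ i, len (A i) ≤ 2 ^ b)
    (he : ∀ i j, e i j ≤ 2 ^ b) (hT : m * D ≤ T) (hc : m + D + b ≤ c)
    (hB1 : k * (D + k * T) = B)
    (hDD : T + T * T * (2 * D * D) + (D + k * B * T) = DD)
    (hε : b + (t1 + t2 + n * (n * (DD + 1)) + 1) * D + 2 * D ≤ ε)
    (hrank : ∀ v : Fin (κ0 + 1) → Fin k,
      ¬ AlgebraicIndependent ℤ fun a => A (v a) * ∏ j, f j ^ e (v a) j)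
    (hne : ∑ i, A i * ∏ j, f j ^ e i j ≠ 0) :
    ∃ p, p.Prime ∧ p ≤ 64 * (LL k T D c ε B + 1) ^ 2 ∧
      ∃ (w1 z1 : Fin t1 → ℕ) (w2 z2 : Fin t2 → ℕ), ∀ N, B + k ≤ N →
      ¬ (X : (ZMod p)[X]) ^ N ∣ onl (fun s => (ipt n w2 z2 s : ZMod p))
        (fun s => (ipt n w1 z1 s : ZMod p)) (∑ i, A i * ∏ j, f j ^ e i j) := by
  classical
  obtain ⟨M, hMdef⟩ : ∃ M, M = 2 ^ (t1 + t2 + n * (n * (DD + 1))) := ⟨_, rfl⟩
  obtain ⟨w, hwdef⟩ : ∃ w, w = t1 + t2 + n * (n * (DD + 1)) + 1 := ⟨_, rfl⟩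
  have hM0 : 1 ≤ M := by rw [hMdef]; exact Nat.one_le_two_pow
  have hw : 2 * M ≤ 2 ^ w := by rw [hMdef, hwdef, pow_succ, mul_comm]
  rw [← hwdef] at hε
  have hsumT : ∑ j, (f j).totalDegree ≤ T := by
    refine le_trans ?_ hT
    refine (Finset.sum_le_sum fun j _ => hdegD j).trans ?_
    simp
  obtain ⟨m', g, a, u, hu, hg1, hgd, hgT, hrel, hfac, haD⟩ :=
    exists_factorization m D T f hprim hdegD hsumT
  have hf0 : ∀ j, f j ≠ 0 := by
    intro j h0
    have := hprim j 0 (by rw [h0]; exact dvd_zero _)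
    exact not_isUnit_zero this
  have hgD : ∀ t, (g t).totalDegree ≤ D := by
    intro t
    obtain ⟨j, hj⟩ := hgd t
    exact (MvPolynomial.totalDegree_le_of_dvd_of_isDomain hj (hf0 j)).trans (hdegD j)
  have hunit : ∀ i, IsUnit (∏ j, u j ^ e i j) := by
    intro i
    rw [IsUnit.prod_univ_iff]
    exact fun j => (hu j).pow _
  have hrw : ∀ i, A i * ∏ j, f j ^ e i j =
      (A i * ∏ j, u j ^ e i j) * ∏ t, g t ^ (∑ j, a j t * e i j) := by
    intro i
    have h1 : ∏ j, f j ^ e i j = (∏ j, u j ^ e i j) * ∏ t, g t ^ (∑ j, a j t * e i j) := by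
      have h2 : ∀ j, f j ^ e i j = u j ^ e i j * ∏ t, g t ^ (a j t * e i j) := by
        intro j
        conv_lhs => rw [hfac j]
        rw [mul_pow, ← Finset.prod_pow]
        congr 1
        exact Finset.prod_congr rfl fun t _ => by rw [pow_mul]
      rw [Finset.prod_congr rfl fun j _ => h2 j, Finset.prod_mul_distrib, Finset.prod_comm]
      congr 1
      exact Finset.prod_congr rfl fun t _ => Finset.prod_pow_eq_pow_sum _ _ _
    rw [h1, mul_assoc]
  have hrw' : ∑ i, A i * ∏ j, f j ^ e i j =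
      ∑ i, (A i * ∏ j, u j ^ e i j) * ∏ t, g t ^ (∑ j, a j t * e i j) :=
    Finset.sum_congr rfl fun i _ => hrw i
  rw [hrw'] at hne ⊢
  obtain ⟨A', hA'⟩ : ∃ A' : Fin k → MvPolynomial (Fin n) ℤ, A' = fun i => A i * ∏ j, u j ^ e i j :=
    ⟨_, rfl⟩
  obtain ⟨e', he'⟩ : ∃ e' : Fin k → Fin m' → ℕ, e' = fun i t => ∑ j, a j t * e i j := ⟨_, rfl⟩
  have hrw2 : ∑ i, (A i * ∏ j, u j ^ e i j) * ∏ t, g t ^ (∑ j, a j t * e i j) =
      ∑ i, A' i * ∏ t, g t ^ e' i t := by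
    rw [hA', he']
  rw [hrw2] at hne ⊢
  have h2D : D + 1 ≤ 2 ^ D := Nat.lt_two_pow_self
  have hd1 : ∀ i, (A' i).totalDegree ≤ D := by
    intro i
    rw [hA']
    refine (MvPolynomial.totalDegree_mul _ _).trans ?_
    rw [totalDegree_unit (hunit i), add_zero]
    exact hAD i
  have hd2 : ∀ i t, e' i t ≤ 2 ^ c := by
    intro i t
    rw [he']
    calc ∑ j, a j t * e i j ≤ ∑ _j : Fin m, D * 2 ^ b :=
          Finset.sum_le_sum fun j _ => Nat.mul_le_mul (haD j t) (he i j)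
      _ = m * (D * 2 ^ b) := by simp
      _ ≤ 2 ^ m * (2 ^ D * 2 ^ b) := Nat.mul_le_mul Nat.lt_two_pow_self.le
          (Nat.mul_le_mul_right _ Nat.lt_two_pow_self.le)
      _ = 2 ^ (m + D + b) := by rw [pow_add, pow_add, mul_assoc]
      _ ≤ 2 ^ c := Nat.pow_le_pow_right (by norm_num) hc
  have hd3 : ∀ α β : Fin n → ℤ, (∀ s, (α s).natAbs ≤ M) → (∀ s, (β s).natAbs ≤ M) →
      (∀ t, MvPolynomial.eval α (g t) ≠ 0) →
      ∀ t i, ((onl α β (g t)).coeff i).natAbs ≤ 2 ^ ε := by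
    intro α β hα hβ hz t i
    obtain ⟨j, hj⟩ := hgd t
    have h1 : onl α β (f j) ≠ 0 := by
      intro h0
      have h3 : MvPolynomial.eval α (f j) = 0 := by
        have := eval_zero_onl α β (f j)
        rw [h0, eval_zero] at this
        exact this.symm
      rw [hfac j, map_mul, map_prod] at h3
      rcases mul_eq_zero.1 h3 with h4 | h4
      · have := natAbs_eval_unit α (hu j)
        rw [h4] at this
        simp at this
      · rw [Finset.prod_eq_zero_iff] at h4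
        obtain ⟨t', -, h5⟩ := h4
        rw [map_pow] at h5
        exact hz t' (eq_zero_of_pow_eq_zero h5)
    have hdv : onl α β (g t) ∣ onl α β (f j) := by
      obtain ⟨r, hr⟩ := hj
      rw [hr, map_mul]
      exact Dvd.intro _ rfl
    have hbd : ∀ i, ((onl α β (f j)).coeff i).natAbs ≤ len (f j) * (2 * M) ^ D := fun i =>
      natAbs_coeff_onl_le α β M D hM0 hα hβ (f j) (hdegD j) i
    have hnd : (onl α β (f j)).natDegree ≤ D := (natDegree_onl_le _ _ _).trans (hdegD j)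
    obtain ⟨E, hE⟩ : ∃ E, E = len (f j) * (2 * M) ^ D := ⟨_, rfl⟩
    rw [← hE] at hbd
    have h2 := mignotte (onl α β (f j)) (onl α β (g t)) D E hdv h1 hnd hbd i
    refine h2.trans ?_
    rw [hE]
    calc 2 ^ D * ((D + 1) * (len (f j) * (2 * M) ^ D))
        ≤ 2 ^ D * (2 ^ D * (2 ^ b * (2 ^ w) ^ D)) := Nat.mul_le_mul_left _ (Nat.mul_le_mul h2D
          (Nat.mul_le_mul (hflen j) (Nat.pow_le_pow_left hw _)))
      _ = 2 ^ (b + w * D + 2 * D) := by
          rw [← pow_mul, ← pow_add, ← pow_add, ← pow_add]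
          congr 1
          ring
      _ ≤ 2 ^ ε := Nat.pow_le_pow_right (by norm_num) hε
  have hd4 : ∀ α : Fin n → ℤ, (∀ s, (α s).natAbs ≤ M) →
      ∀ i, (MvPolynomial.eval α (A' i)).natAbs ≤ 2 ^ ε := by
    intro α hα i
    rw [hA', map_mul, Int.natAbs_mul, natAbs_eval_unit α (hunit i), mul_one]
    refine (natAbs_eval_le α M D hM0 hα (A i) (hAD i)).trans ?_
    calc len (A i) * (2 * M) ^ D ≤ 2 ^ b * (2 ^ w) ^ D :=
          Nat.mul_le_mul (hAlen i) (Nat.pow_le_pow_left hw _)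
      _ = 2 ^ (b + w * D) := by rw [← pow_mul, ← pow_add]
      _ ≤ 2 ^ ε := Nat.pow_le_pow_right (by norm_num) (by omega)
  have hg0 : ∀ t, g t ≠ 0 := by
    intro t h0
    have := hg1 t
    rw [h0] at this
    simp at this
  have hPg : ∀ t, P n (g t) := by
    intro t
    obtain ⟨j, hj⟩ := hgd t
    exact hPf j _ hj
  have hPA' : ∀ i, PA n (A' i) := by
    intro i
    rw [hA']
    exact eng.unit n _ _ (hPA i) (hunit i)
  refine exists_hit_eng m' k D T c ε B t1 t2 DD g A' e' hg1 hgD hgT hd1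
    (fun t => eng.top n _ (hPg t) (hg0 t)) (fun t => eng.val n _ (hPg t) (hg0 t))
    (fun t t' h => eng.res n _ _ (hPg t) (hPg t') (hg1 t) (hg1 t') (hrel t t' h)) hd2 hB1
    hDD ?_ ?_ ?_ hne
  · rw [← hMdef]
    exact hd3
  · rw [← hMdef]
    exact hd4
  · intro i0 e0 r her hne'
    refine eng.pit n k m' A' g hPA' hPg hg0 _ e' e0 r her ?_ hne'
    intro v _
    have h9 : (fun a => A' (v a) * ∏ t, g t ^ e' (v a) t) =
        fun a => A (v a) * ∏ j, f j ^ e (v a) j := by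
      funext a
      rw [hA', he']
      exact (hrw (v a)).symm
    rw [h9]
    exact hrank v

end Pool.Agent.PXE.H82
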