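import Mathlib
import Pool.Agent.Helper26_RS.Main
import Pool.Agent.Helper82_PXE.General

set_option autoImplicit false

/-!
# Identity test for sums of few products of powers, for abstract classes of base polynomials
(edit of `Helper26_RS/Main.lean`)
-/

namespace Pool.Agent.PXE.H82

open Polynomial Pool.Agent Pool.Agent.UO Pool.Agent.Helper12_FV Pool.Agent.Helper12_D3
  Pool.Agent.Helper78_ACIT Pool.Agent.Helper26_RS

/-- A nonzero polynomial is hit: version with the algebraic rank. -/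
theorem exists_hit_main_eng (k t1 t2 : ℕ) {P PA : ∀ n : ℕ, MvPolynomial (Fin n) ℤ → Prop}
    (eng : Eng k t1 t2 P PA) (n m N b d : ℕ)
    (f : Fin m → MvPolynomial (Fin n) ℤ) (A : Fin N → MvPolynomial (Fin n) ℤ)
    (e : Fin N → Fin m → ℕ) (hPf : ∀ j, ∀ g, g ∣ f j → P n g) (hPA : ∀ i, PA n (A i))
    (hfd : ∀ j, (f j).totalDegree ≤ d) (hAd : ∀ i, (A i).totalDegree ≤ d)
    (hfb : ∀ j, len (f j) ≤ 2 ^ b) (hAb : ∀ i, len (A i) ≤ 2 ^ b) (he : ∀ i j, e i j ≤ 2 ^ b)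
    (hcase : ((∀ j, ∀ z : ℤ, MvPolynomial.C z ∣ f j → IsUnit z) ∧
        ∀ v : Fin (k + 1) → Fin N,
          ¬ AlgebraicIndependent ℤ fun a => A (v a) * ∏ j, f j ^ e (v a) j) ∨
      ((∀ j, 1 ≤ (f j).totalDegree) ∧ (∀ j j', j ≠ j' → IsRelPrime (f j) (f j')) ∧
        ∀ v : Fin (k + 1) → Fin N,
          (∀ a b, (closeGraph e (N * (d + N * (m * d)))).Reachable (v a) (v b)) →
          ¬ AlgebraicIndependent ℤ fun a => A (v a) * ∏ j, f j ^ e (v a) j))
    (hne : ∑ i, A i * ∏ j, f j ^ e i j ≠ 0) :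
    ∃ p, p.Prime ∧ p ≤ (n + m + N + b + d + 2) ^ (70 * (t1 + t2 + 2)) ∧
      ∃ (w1 z1 : Fin t1 → ℕ) (w2 z2 : Fin t2 → ℕ), ∀ R, N * (d + N * (m * d)) + N ≤ R →
      ¬ (X : (ZMod p)[X]) ^ R ∣ onl (fun s => (ipt n w2 z2 s : ZMod p))
        (fun s => (ipt n w1 z1 s : ZMod p)) (∑ i, A i * ∏ j, f j ^ e i j) := by
  obtain ⟨B, hB⟩ : ∃ B, N * (d + N * (m * d)) = B := ⟨_, rfl⟩
  obtain ⟨c, hc⟩ : ∃ c, c = m + d + b := ⟨_, rfl⟩
  obtain ⟨DD, hDD⟩ : ∃ DD, m * d + m * d * (m * d) * (2 * d * d) + (d + N * B * (m * d)) = DD :=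
    ⟨_, rfl⟩
  obtain ⟨ε, hε⟩ : ∃ ε, ε = b + ((t1 + t2) + n * (n * (DD + 1)) + 1) * d + 2 * d := ⟨_, rfl⟩
  have hbound : 64 * (LL N (m * d) d c ε B + 1) ^ 2 ≤
      (n + m + N + b + d + 2) ^ (70 * (t1 + t2 + 2)) := by
    have h1 := (bound_gen n m N b d (t1 + t2) _ B DD c ε rfl hB hc hDD hε).trans
      (shift_bound (n + m + N + b + d + 2) 0 (t1 + t2) _ (by omega) (by ring))
    rwa [zero_add] at h1
  have key : ∃ p, p.Prime ∧ p ≤ 64 * (LL N (m * d) d c ε B + 1) ^ 2 ∧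
      ∃ (w1 z1 : Fin t1 → ℕ) (w2 z2 : Fin t2 → ℕ), ∀ R, B + N ≤ R →
      ¬ (X : (ZMod p)[X]) ^ R ∣ onl (fun s => (ipt n w2 z2 s : ZMod p))
        (fun s => (ipt n w1 z1 s : ZMod p)) (∑ i, A i * ∏ j, f j ^ e i j) := by
    rcases hcase with ⟨hprim, hrank⟩ | ⟨hdeg1, hcop, hsize⟩
    · exact exists_hit_general_eng m N k d (m * d) b c ε B t1 t2 DD eng f A e hprim hPf hPA hfd hAd
        hfb hAb he le_rfl hc.ge hB hDD hε.ge hrank hne
    · rw [hB] at hsize
      have hf0 : ∀ j, f j ≠ 0 := by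
        intro j h0
        have := hdeg1 j
        rw [h0] at this
        simp at this
      obtain ⟨M, hMdef⟩ : ∃ M, M = 2 ^ (t1 + t2 + n * (n * (DD + 1))) := ⟨_, rfl⟩
      have hM0 : 1 ≤ M := by rw [hMdef]; exact Nat.one_le_two_pow
      have hw : 2 * M ≤ 2 ^ (t1 + t2 + n * (n * (DD + 1)) + 1) := by
        rw [hMdef, pow_succ, mul_comm]
      have hlen : ∀ g : MvPolynomial (Fin n) ℤ, len g ≤ 2 ^ b → len g * (2 * M) ^ d ≤ 2 ^ ε := by
        intro g hg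
        calc len g * (2 * M) ^ d
            ≤ 2 ^ b * (2 ^ (t1 + t2 + n * (n * (DD + 1)) + 1)) ^ d :=
              Nat.mul_le_mul hg (Nat.pow_le_pow_left hw _)
          _ = 2 ^ (b + (t1 + t2 + n * (n * (DD + 1)) + 1) * d) := by rw [← pow_mul, ← pow_add]
          _ ≤ 2 ^ ε := Nat.pow_le_pow_right (by norm_num) (by omega)
      have hPf' : ∀ j, P n (f j) := fun j => hPf j _ dvd_rfl
      refine exists_hit_eng m N d (m * d) c ε B t1 t2 DD f A e hdeg1 hfd ?_ hAd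
        (fun j => eng.top n _ (hPf' j) (hf0 j)) (fun j => eng.val n _ (hPf' j) (hf0 j))
        (fun j j' h => eng.res n _ _ (hPf' j) (hPf' j') (hdeg1 j) (hdeg1 j') (hcop j j' h))
        (fun i j => (he i j).trans (Nat.pow_le_pow_right (by norm_num) (by omega))) hB
        hDD ?_ ?_ (fun i0 e0 r her hne' => eng.pit n N m A f hPA hPf' hf0 _ e e0 r her
          (fun v hv => hsize v fun a b => ?_) hne') hne
      · refine (Finset.sum_le_sum fun j _ => hfd j).trans ?_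
        simp
      · intro α β hα hβ _ j i
        rw [← hMdef] at hα hβ
        exact (natAbs_coeff_onl_le α β M d hM0 hα hβ (f j) (hfd j) i).trans (hlen _ (hfb j))
      · intro α hα i
        rw [← hMdef] at hα
        exact (natAbs_eval_le α M d hM0 hα (A i) (hAd i)).trans (hlen _ (hAb i))
      · have h8 : ∀ a, (closeGraph e B).Reachable i0 (v a) := by
          intro a
          have := hv a
          simpa only [cluster, Finset.mem_filter, Finset.mem_univ, true_and] using this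
        exact (h8 a).symm.trans (h8 b)
  obtain ⟨p, hp, hple, h⟩ := key
  rw [hB]
  exact ⟨p, hp, hple.trans hbound, h⟩

theorem main_eng (k t1 t2 : ℕ) {P PA : ∀ n : ℕ, MvPolynomial (Fin n) ℤ → Prop}
    (eng : Eng k t1 t2 P PA) (n m N b d : ℕ)
    (f : Fin m → MvPolynomial (Fin n) ℤ) (A : Fin N → MvPolynomial (Fin n) ℤ)
    (e : Fin N → Fin m → ℕ) : (∀ j, ∀ g, g ∣ f j → P n g) → (∀ i, PA n (A i)) →
    (∀ j, (f j).totalDegree ≤ d) → (∀ i, (A i).totalDegree ≤ d) →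
    (∀ j, len (f j) ≤ 2 ^ b) → (∀ i, len (A i) ≤ 2 ^ b) → (∀ i j, e i j ≤ 2 ^ b) →
    (((∀ j, ∀ z : ℤ, MvPolynomial.C z ∣ f j → IsUnit z) ∧
        ∀ v : Fin (k + 1) → Fin N,
          ¬ AlgebraicIndependent ℤ fun a => A (v a) * ∏ j, f j ^ e (v a) j) ∨
      ((∀ j, 1 ≤ (f j).totalDegree) ∧ (∀ j j', j ≠ j' → IsRelPrime (f j) (f j')) ∧
        ∀ v : Fin (k + 1) → Fin N,
          (∀ a b, (closeGraph e (N * (d + N * (m * d)))).Reachable (v a) (v b)) →
          ¬ AlgebraicIndependent ℤ fun a => A (v a) * ∏ j, f j ^ e (v a) j)) →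
    ∀ G : List Gate, WellFormed G →
    (poly G = 0 ∨ (∑ i, A i * ∏ j, f j ^ e i j ≠ 0 ∧
        poly G ∣ MvPolynomial.rename Fin.val (∑ i, A i * ∏ j, f j ^ e i j))) →
    (G ∈ ACIT ↔ ∀ p, p.Prime → p ≤ (n + m + N + b + d + 2) ^ (70 * (t1 + t2 + 2)) →
      ∀ β γ δ : Fin (t1 + t2) → ZMod p,
        testValue n p (N * (d + N * (m * d)) + N) (t1 + t2) β γ δ G = 0) := by
  intro hPf hPA hfd hAd hfb hAb he hcase G hG hpoly
  constructor
  · rintro ⟨-, h0⟩ p _ _ β γ δ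
    rw [testValue_eq, h0, map_zero, map_zero]
  · intro htest
    refine ⟨hG, ?_⟩
    rcases hpoly with h0 | ⟨hF, hdvd⟩
    · exact h0
    exfalso
    obtain ⟨p, hp, hple, w1, z1, w2, z2, hhit⟩ := exists_hit_main_eng k t1 t2 eng n m N b d
      f A e hPf hPA hfd hAd hfb hAb he hcase hF
    have h1 := htest p hp hple
      (Fin.append (fun j => ((w1 j : ℕ) : ZMod p)) (fun j => ((w2 j : ℕ) : ZMod p)))
      (Fin.append 0 (fun j => ((z2 j : ℕ) : ZMod p)))
      (Fin.append (fun j => ((z1 j : ℕ) : ZMod p)) 0)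
    rw [testValue_eq, AdjoinRoot.mk_eq_zero] at h1
    apply hhit _ le_rfl
    have hcast : ∀ {s : ℕ} (w z : Fin s → ℕ) (i : Fin n), ((ipt n w z i : ℤ) : ZMod p) =
        point n (fun j => ((w j : ℕ) : ZMod p)) (fun j => ((z j : ℕ) : ZMod p)) (i : ℕ) := by
      intro s w z i
      unfold ipt
      rw [← eq_intCast (Int.castRingHom (ZMod p)), point_map]
      simp
    have h2 := onLine_rename n p (t1 + t2)
      (Fin.append (fun j => ((w1 j : ℕ) : ZMod p)) (fun j => ((w2 j : ℕ) : ZMod p)))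
      (Fin.append 0 (fun j => ((z2 j : ℕ) : ZMod p)))
      (Fin.append (fun j => ((z1 j : ℕ) : ZMod p)) 0) (∑ i, A i * ∏ j, f j ^ e i j)
    simp only [point_append, point_zero, zero_add, add_zero] at h2
    simp only [hcast]
    rw [← h2]
    exact h1.trans (map_dvd (onLine n p (t1 + t2) _ _ _) hdvd)

end Pool.Agent.PXE.H82
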