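import Mathlib
import Pool.Agent.Helper26_RS.Pit
import Pool.Agent.Helper99_RS.All
import Pool.Agent.Helper82_PX.Hit
import Pool.Agent.Helper82_PXE.Main
import Pool.Agent.PXE.Stmts

set_option autoImplicit false

/-!
# The two classes: polynomials of bounded degree, polynomials with bounded interaction
-/

namespace Pool.Agent.PXE.H82

open Pool.Agent Pool.Agent.UO Pool.Agent.Helper12_FV Pool.Agent.Helper26_RS
open MvPolynomial

/-- Polynomials with a monomial in few variables are hit (edit of `Helper26_RS.hit_low`). -/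
lemma hit_supp {n t : ℕ} {Q : MvPolynomial (Fin n) ℤ} (m : Fin n →₀ ℕ) (hm : coeff m Q ≠ 0)
    (hmS : m.support.card ≤ t) : Hit t Q := by
  classical
  -- kill the other variables
  obtain ⟨P, hP⟩ : ∃ P : MvPolynomial (Fin n) ℚ, P = aeval (fun i : Fin n =>
      if i ∈ m.support then (X i : MvPolynomial (Fin n) ℚ) else 0)
      (map (Int.castRingHom ℚ) Q) := ⟨_, rfl⟩
  have hcoeff : coeff m P = ((coeff m Q : ℤ) : ℚ) := by
    rw [hP, CMP.coeff_kill m.support m (Finset.Subset.refl _), coeff_map, eq_intCast]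
  have hP0 : P ≠ 0 := by
    intro h0
    rw [h0, coeff_zero] at hcoeff
    exact hm (by exact_mod_cast hcoeff.symm)
  obtain ⟨x, hx⟩ : ∃ x : Fin n → ℚ, eval x P ≠ 0 := by
    by_contra hcon
    push Not at hcon
    exact hP0 (MvPolynomial.funext fun x => by rw [hcon x, map_zero])
  obtain ⟨y, hy⟩ : ∃ y : Fin n → ℚ, y = fun i => if i ∈ m.support then x i else 0 := ⟨_, rfl⟩
  have hxy : eval x P = eval y (map (Int.castRingHom ℚ) Q) := by
    rw [hP]
    have h2 : (eval x).comp (aeval (fun i : Fin n =>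
        if i ∈ m.support then (X i : MvPolynomial (Fin n) ℚ) else 0)).toRingHom =
        (eval y : MvPolynomial (Fin n) ℚ →+* ℚ) := by
      apply MvPolynomial.ringHom_ext
      · intro a
        simp
      · intro i
        simp only [AlgHom.toRingHom_eq_coe, RingHom.coe_comp, RingHom.coe_coe,
          Function.comp_apply, aeval_X, eval_X, hy]
        split_ifs <;> simp
    exact RingHom.congr_fun h2 _
  have hIm : y ∈ Im (fun i : Fin n => ((i : ℕ) : ℚ)) t := by
    refine Im_mono _ hmS (Im_support (fun i j hij => Fin.ext (Nat.cast_injective hij)) m.support y ?_)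
    intro i hi
    rw [hy]
    exact if_neg hi
  obtain ⟨w, z, hwz⟩ := hIm
  apply hit_of_rat
  refine ⟨w, z, ?_⟩
  rw [eval_rename, point_eq_ext]
  have e : (extZ (SV (fun i : Fin n => ((i : ℕ) : ℚ)) w z)) ∘ (Fin.val : Fin n → ℕ) = y := by
    funext i
    change extZ _ (i : ℕ) = _
    unfold extZ
    rw [dif_pos i.2, hwz]
  rw [e, ← hxy]
  exact hx

/-- All monomials of `f` have at most `c` variables. -/
def Mon (c : ℕ) {n : ℕ} (f : MvPolynomial (Fin n) ℤ) : Prop := ∀ s ∈ f.support, s.support.card ≤ c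

lemma mon_of_form {n c : ℕ} {f : MvPolynomial (Fin n) ℤ} (hf : ∀ i, (pderiv i f).vars.card ≤ c) :
    Mon (c + 1) f := by
  classical
  intro s hs
  by_cases h0 : s.support = ∅
  · rw [h0]
    simp
  obtain ⟨i, hi⟩ := Finset.nonempty_iff_ne_empty.2 h0
  have hsi : s i ≠ 0 := Finsupp.mem_support_iff.1 hi
  have h2 : s - Finsupp.single i 1 + Finsupp.single i 1 = s := by
    apply tsub_add_cancel_of_le
    rw [Finsupp.single_le_iff]
    omega
  have h3 : s - Finsupp.single i 1 ∈ (pderiv i f).support := by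
    rw [mem_support_iff, coeff_pderiv, h2]
    exact mul_ne_zero (mem_support_iff.1 hs) (Nat.cast_add_one_ne_zero _)
  have h4 : s.support.erase i ⊆ (pderiv i f).vars := by
    intro j hj
    rw [Finset.mem_erase] at hj
    refine (mem_vars_iff_mem_support j).2 ⟨_, h3, ?_⟩
    rw [Finsupp.mem_support_iff, Finsupp.tsub_apply, Finsupp.single_eq_of_ne hj.1]
    simpa using Finsupp.mem_support_iff.1 hj.2
  have h5 := (Finset.card_le_card h4).trans (hf i)
  rw [Finset.card_erase_of_mem hi] at h5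
  omega

lemma hit_mon {n c t : ℕ} {f : MvPolynomial (Fin n) ℤ} (hf : Mon c f) (h0 : f ≠ 0) (ht : c ≤ t) :
    Hit t f := by
  obtain ⟨m, hm⟩ := MvPolynomial.ne_zero_iff.1 h0
  exact hit_supp m hm ((hf m (mem_support_iff.2 hm)).trans ht)

lemma mon_topp {n c : ℕ} {f : MvPolynomial (Fin n) ℤ} (hf : Mon c f) : Mon c (topp f) := by
  classical
  intro s hs
  apply hf
  rw [mem_support_iff] at hs ⊢
  unfold topp at hs
  rw [coeff_homogeneousComponent] at hs
  split_ifs at hs with h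
  · exact hs
  · exact absurd rfl hs

/-! ### From hitting sets for compositions to the class sums -/

lemma pitz_of {k t2 n N m : ℕ} (A : Fin N → MvPolynomial (Fin n) ℤ)
    (f : Fin m → MvPolynomial (Fin n) ℤ) (hf0 : ∀ j, f j ≠ 0)
    (I : Finset (Fin N)) (e : Fin N → Fin m → ℕ) (e0 : Fin m → ℕ) (r : Fin N → Fin m → ℕ)
    (her : ∀ i ∈ I, ∀ j, e i j = e0 j + r i j)
    (hrank : ∀ v : Fin (k + 1) → Fin N, (∀ a, v a ∈ I) →
      ¬ AlgebraicIndependent ℤ fun a => A (v a) * ∏ j, f j ^ e (v a) j)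
    (hne : ∑ i ∈ I, A i * ∏ j, f j ^ r i j ≠ 0)
    (hit : ∀ (M : ℕ) (T : Fin M → MvPolynomial (Fin n) ℚ),
      (∀ a, ∃ i, T a = map (Int.castRingHom ℚ) (A i * ∏ j, f j ^ r i j)) →
      (∀ v : Fin (k + 1 + 1) → Fin M, ¬ AlgebraicIndependent ℚ fun a => T (v a)) →
      ∀ C : MvPolynomial (Fin M) ℚ, aeval T C ≠ 0 →
      ∃ w z : Fin t2 → ℚ, eval (point n w z) (rename Fin.val (aeval T C) : MvPolynomial ℕ ℚ) ≠ 0) :
    Hit t2 (∑ i ∈ I, A i * ∏ j, f j ^ r i j) := by
  classical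
  obtain ⟨φ, hφ⟩ : ∃ φ : MvPolynomial (Fin n) ℤ →+* MvPolynomial (Fin n) ℚ,
    φ = MvPolynomial.map (Int.castRingHom ℚ) := ⟨_, rfl⟩
  have hφinj : Function.Injective φ := by
    rw [hφ]
    exact MvPolynomial.map_injective _ (RingHom.injective_int _)
  rw [← hφ] at hit
  -- enumeration of `I`
  obtain ⟨en⟩ : Nonempty (Fin I.card ≃ I) := ⟨I.equivFin.symm⟩
  obtain ⟨T, hT⟩ : ∃ T : Fin I.card → MvPolynomial (Fin n) ℚ,
    T = fun a => φ (A (en a) * ∏ j, f j ^ r (en a) j) := ⟨_, rfl⟩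
  have hsum : MvPolynomial.aeval T (∑ a, (MvPolynomial.X a : MvPolynomial (Fin I.card) ℚ)) =
      φ (∑ i ∈ I, A i * ∏ j, f j ^ r i j) := by
    rw [map_sum, map_sum, ← Finset.sum_attach (s := I), Finset.attach_eq_univ,
      ← Equiv.sum_comp en fun i : I => φ (A i * ∏ j, f j ^ r (i : Fin N) j)]
    refine Finset.sum_congr rfl fun a _ => ?_
    rw [MvPolynomial.aeval_X, hT]
  have hP0 : φ (∏ j, f j ^ e0 j) ≠ 0 := by
    intro h0
    rw [← map_zero φ] at h0
    exact Finset.prod_ne_zero_iff.2 (fun j _ => pow_ne_zero _ (hf0 j)) (hφinj h0)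
  have hmul : ∀ i ∈ I, φ (∏ j, f j ^ e0 j) * φ (A i * ∏ j, f j ^ r i j) =
      φ (A i * ∏ j, f j ^ e i j) := by
    intro i hi
    rw [← map_mul]
    congr 1
    rw [mul_left_comm, ← Finset.prod_mul_distrib]
    congr 1
    apply Finset.prod_congr rfl
    intro j _
    rw [← pow_add, her i hi j]
  have hdep : ∀ v : Fin (k + 1 + 1) → Fin I.card,
      ¬ AlgebraicIndependent ℚ fun a => T (v a) := by
    intro v hv
    obtain ⟨v', hv'⟩ := rel (fun a => T (v a)) hv _ hP0
    apply hrank (fun a => (en (v (v' a)) : Fin N)) fun a => (en (v (v' a))).2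
    have h1 : (fun a => φ (∏ j, f j ^ e0 j) * T (v (v' a))) =
        fun a => φ (A (en (v (v' a))) * ∏ j, f j ^ e (en (v (v' a))) j) := by
      funext a
      rw [hT]
      exact hmul _ (en (v (v' a))).2
    rw [h1] at hv'
    have h2 := hv'.restrictScalars (R := ℤ) (RingHom.injective_int _)
    exact AlgebraicIndependent.of_comp φ.toIntAlgHom h2
  have h0 : MvPolynomial.aeval T
      (∑ a, (MvPolynomial.X a : MvPolynomial (Fin I.card) ℚ)) ≠ 0 := by
    rw [hsum]
    intro h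
    apply hne
    apply hφinj
    rw [h, map_zero]
  have h1 := hit I.card T (fun a => ⟨en a, by rw [hT]⟩) hdep _ h0
  rw [hsum, hφ] at h1
  exact hit_of_rat h1

/-! ### Polynomials of bounded degree -/

lemma res_low {n d t1 t2 : ℕ} (f g : MvPolynomial (Fin n) ℤ) (hf : f.totalDegree ≤ d)
    (hg : g.totalDegree ≤ d) (hf1 : 1 ≤ f.totalDegree) (hg1 : 1 ≤ g.totalDegree)
    (hfg : IsRelPrime f g) (ht1 : d ≤ t1) (ht2 : 2 * d * d ≤ t2) : ResHit t1 t2 f g := by
  have hf0 : f ≠ 0 := by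
    rintro rfl
    simp at hf1
  have hg0 : g ≠ 0 := by
    rintro rfl
    simp at hg1
  obtain ⟨w1, z1, -, -, hβ⟩ := ((hit_low (t := t1) (topp_ne_zero hf0)
    ((totalDegree_topp_le f).trans (hf.trans ht1))).mul (hit_low (t := t1) (topp_ne_zero hg0)
    ((totalDegree_topp_le g).trans (hg.trans ht1)))).exists_point _ le_rfl
  rw [map_mul] at hβ
  have h1 := rho_ne_zero (fun s : Fin n => point n (fun j => (w1 j : ℤ)) (fun j => (z1 j : ℤ))
    (s : ℕ)) f g hf1 (left_ne_zero_of_mul hβ) (right_ne_zero_of_mul hβ) hfg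
  obtain ⟨w2, z2, -, -, hα⟩ := (hit_low (t := t2) h1
    ((totalDegree_rho_le _ f g d hf hg).trans ht2)).exists_point _ le_rfl
  refine ⟨fun j => (w1 j : ℤ), fun j => (z1 j : ℤ), fun j => (w2 j : ℤ), fun j => (z2 j : ℤ), ?_⟩
  rw [eval_rho] at hα
  exact hα

/-- Numerators and base polynomials of degree at most `d`. -/
theorem eng_low (k d : ℕ) : ∃ T1 T2 : ℕ, ∀ t1 t2, T1 ≤ t1 → T2 ≤ t2 →
    Eng k t1 t2 (fun _ f => f.totalDegree ≤ d) (fun _ a => a.totalDegree ≤ d) := by
  obtain ⟨s0, hs0⟩ := algpit_of_hit RS.H99.hit (k + 1) d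
  refine ⟨d, s0 + d + 2 * d * d, fun t1 t2 ht1 ht2 => ⟨?_, ?_, ?_, ?_, ?_⟩⟩
  · intro n f hf h0
    exact hit_low (topp_ne_zero h0) ((totalDegree_topp_le f).trans (hf.trans ht1))
  · intro n f hf h0
    exact hit_low h0 (hf.trans (by omega))
  · intro n f g hf hg hf1 hg1 hfg
    exact res_low f g hf hg hf1 hg1 hfg ht1 (by omega)
  · intro n a u ha hu
    refine (totalDegree_mul _ _).trans ?_
    rw [totalDegree_unit hu, add_zero]
    exact ha
  · intro n N m A f hA hf hf0 I e e0 r her hrank hne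
    exact hit_of_algpit (hs0 t2 (by omega)) A f hA hf hf0 I e e0 r her hrank hne

end Pool.Agent.PXE.H82
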