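import Mathlib
import Pool.Agent.Helper82_PX.All
import Pool.Agent.Helper82_PXE.Cls

set_option autoImplicit false

/-!
# The class of polynomials with bounded interaction
-/

namespace Pool.Agent.PXE.H82

open Pool.Agent Pool.Agent.UO Pool.Agent.Helper12_FV Pool.Agent.Helper26_RS
open MvPolynomial
open Pool.Agent.PX (IsLo IsForm IsCl IsPC)

/-- The image of a polynomial over `ℤ` in `MvPolynomial ℕ ℚ`. -/
noncomputable def phi (n : ℕ) : MvPolynomial (Fin n) ℤ →+* MvPolynomial ℕ ℚ :=
  ((rename Fin.val : MvPolynomial (Fin n) ℚ →ₐ[ℚ] MvPolynomial ℕ ℚ) :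
    MvPolynomial (Fin n) ℚ →+* MvPolynomial ℕ ℚ).comp (map (Int.castRingHom ℚ))

lemma phi_apply {n : ℕ} (f : MvPolynomial (Fin n) ℤ) :
    phi n f = rename Fin.val (map (Int.castRingHom ℚ) f) := rfl

lemma phi_injective (n : ℕ) : Function.Injective (phi n) := by
  intro f g h
  rw [phi_apply, phi_apply] at h
  exact map_injective _ (RingHom.injective_int _) (rename_injective _ Fin.val_injective h)

lemma vars_phi {n : ℕ} (f : MvPolynomial (Fin n) ℤ) : (phi n f).vars = f.vars.image Fin.val := by
  classical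
  rw [phi_apply]
  have h1 : (map (Int.castRingHom ℚ) f).vars = f.vars :=
    vars_map_of_injective _ (RingHom.injective_int _)
  ext i
  rw [mem_vars_iff_mem_support, Finset.mem_image]
  constructor
  · rintro ⟨s, hs, hi⟩
    rw [support_rename_of_injective Fin.val_injective, Finset.mem_image] at hs
    obtain ⟨u, hu, rfl⟩ := hs
    rw [Finsupp.mapDomain_support_of_injective Fin.val_injective, Finset.mem_image] at hi
    obtain ⟨j, hj, rfl⟩ := hi
    refine ⟨j, ?_, rfl⟩
    rw [← h1, mem_vars_iff_mem_support]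
    exact ⟨u, hu, hj⟩
  · rintro ⟨j, hj, rfl⟩
    rw [← h1, mem_vars_iff_mem_support] at hj
    obtain ⟨u, hu, hj⟩ := hj
    refine ⟨u.mapDomain Fin.val, ?_, ?_⟩
    · rw [support_rename_of_injective Fin.val_injective, Finset.mem_image]
      exact ⟨u, hu, rfl⟩
    · rw [Finsupp.mapDomain_support_of_injective Fin.val_injective, Finset.mem_image]
      exact ⟨j, hj, rfl⟩

lemma pderiv_phi {n : ℕ} (f : MvPolynomial (Fin n) ℤ) (i : Fin n) :
    pderiv (i : ℕ) (phi n f) = phi n (pderiv i f) := by
  rw [phi_apply, phi_apply, pderiv_rename Fin.val_injective, pderiv_map]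

lemma isLo_phi {n c : ℕ} {f : MvPolynomial (Fin n) ℤ} :
    IsLo c (phi n f) ↔ ∀ i, (pderiv i f).vars.card ≤ c := by
  classical
  constructor
  · intro h i
    have h1 := h (i : ℕ)
    rw [pderiv_phi, vars_phi, Finset.card_image_of_injective _ Fin.val_injective] at h1
    exact h1
  · intro h i
    by_cases hi : i < n
    · have h1 := h ⟨i, hi⟩
      have h2 := pderiv_phi f ⟨i, hi⟩
      change pderiv i (phi n f) = _ at h2
      rw [h2, vars_phi, Finset.card_image_of_injective _ Fin.val_injective]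
      exact h1
    · rw [pderiv_eq_zero_of_notMem_vars, vars_0]
      · exact Nat.zero_le _
      · rw [vars_phi]
        intro h1
        obtain ⟨j, -, rfl⟩ := Finset.mem_image.1 h1
        exact hi j.2

lemma isForm_phi {n c : ℕ} {f : MvPolynomial (Fin n) ℤ} (h : ∀ i, (pderiv i f).vars.card ≤ c) :
    IsForm c n (phi n f) := by
  classical
  refine ⟨?_, isLo_phi.2 h⟩
  rw [vars_phi]
  intro i hi
  obtain ⟨j, -, rfl⟩ := Finset.mem_image.1 hi
  exact Finset.mem_range.2 j.2

lemma small_phi {n c : ℕ} {a : MvPolynomial (Fin n) ℤ} (h : Mon c a) :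
    (phi n a).vars ⊆ Finset.range n ∧ ∀ s ∈ (phi n a).support, s.support.card ≤ c := by
  classical
  refine ⟨?_, ?_⟩
  · rw [vars_phi]
    intro i hi
    obtain ⟨j, -, rfl⟩ := Finset.mem_image.1 hi
    exact Finset.mem_range.2 j.2
  · intro s hs
    rw [phi_apply, support_rename_of_injective Fin.val_injective, Finset.mem_image] at hs
    obtain ⟨u, hu, rfl⟩ := hs
    rw [Finsupp.mapDomain_support_of_injective Fin.val_injective,
      Finset.card_image_of_injective _ Fin.val_injective]
    exact h u (support_map_subset _ _ hu)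

/-- Factors of forms are forms. -/
lemma form_dvd (irr : IrrStmt) {n c : ℕ} {f g : MvPolynomial (Fin n) ℤ} (hf0 : f ≠ 0)
    (hf : ∀ i, (pderiv i f).vars.card ≤ c) (hg : g ∣ f) :
    ∀ i, (pderiv i g).vars.card ≤ 2 * c + 2 := by
  rw [← isLo_phi]
  refine irr ℚ c (phi n f) (phi n g) ?_ (isLo_phi.2 hf) (map_dvd _ hg)
  intro h
  apply hf0
  apply phi_injective n
  rw [h, map_zero]

/-- A term is a cluster. -/
lemma cl_term {n c m : ℕ} (a : MvPolynomial (Fin n) ℤ) (f : Fin m → MvPolynomial (Fin n) ℤ)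
    (r : Fin m → ℕ) (ha : Mon c a) (hf : ∀ j, ∀ i, (pderiv i (f j)).vars.card ≤ c) :
    IsCl ℚ c n (phi n (a * ∏ j, f j ^ r j)) := by
  classical
  obtain ⟨L, hL⟩ : ∃ L : List (MvPolynomial ℕ ℚ), L =
      (List.finRange m).flatMap fun j => List.replicate (r j) (phi n (f j)) := ⟨_, rfl⟩
  have hLprod : L.prod = phi n (∏ j, f j ^ r j) := by
    rw [hL, map_prod]
    rw [List.flatMap, List.prod_flatten, List.map_map]
    have h1 : (List.prod ∘ fun j => List.replicate (r j) (phi n (f j))) =
        fun j => phi n (f j ^ r j) := by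
      funext j
      simp [List.prod_replicate]
    rw [h1, ← List.prod_ofFn, List.ofFn_eq_map]
  have hLf : ∀ g ∈ L, IsForm c n g := by
    intro g hg
    rw [hL] at hg
    simp only [List.mem_flatMap, List.mem_replicate] at hg
    obtain ⟨j, -, -, rfl⟩ := hg
    exact isForm_phi (hf j)
  refine ⟨L.length, 1, fun v => L.get v, fun _ => phi n a, fun _ _ => 1,
    fun v => hLf _ (List.get_mem _ _), fun _ => small_phi ha, fun _ _ => ⟨?_, one_ne_zero⟩, ?_⟩
  · have h := PX.H82.isForm_const (c := c) (n := n) (1 : ℚ)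
    rwa [map_one] at h
  · have h1 : ∏ v, L.get v = L.prod := by
      rw [← List.prod_ofFn, List.ofFn_get]
    rw [h1, hLprod, map_mul]
    simp only [Finset.prod_const_one, mul_one, Finset.univ_unique, Finset.sum_singleton]
    rw [mul_comm]

/-- Base polynomials with bounded interaction, numerators with few variables in each monomial. -/
theorem eng_px (res : ResStmt) (k c : ℕ) : ∃ T1 T2 : ℕ, ∀ t1 t2, T1 ≤ t1 → T2 ≤ t2 →
    Eng k t1 t2 (fun n f => ∀ i : Fin n, (pderiv i f).vars.card ≤ c) (fun _ a => Mon c a) := by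
  classical
  obtain ⟨R1, R2, hR⟩ := res c
  obtain ⟨s0, hs0⟩ := PX.H82.hit PX.aThx (k + 1) c
  refine ⟨R1 + (c + 1), R2 + (c + 1) + s0, fun t1 t2 ht1 ht2 => ⟨?_, ?_, ?_, ?_, ?_⟩⟩
  · intro n f hf h0
    exact hit_mon (mon_topp (mon_of_form hf)) (topp_ne_zero h0) (by omega)
  · intro n f hf h0
    exact hit_mon (mon_of_form hf) h0 (by omega)
  · intro n f g hf hg hf1 hg1 hfg
    exact hR t1 t2 n f g (by omega) (by omega) hf hg hf1 hg1 hfg
  · intro n a u ha hu s hs
    obtain ⟨z, hz, rfl⟩ := (MvPolynomial.isUnit_iff_eq_C_of_isReduced).1 hu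
    apply ha
    rw [mul_comm] at hs
    rw [mem_support_iff, coeff_C_mul] at hs
    rw [mem_support_iff]
    exact right_ne_zero_of_mul hs
  · intro n N m A f hA hf hf0 I e e0 r her hrank hne
    refine pitz_of A f hf0 I e e0 r her hrank hne ?_
    intro M T hT hdep C hC
    have hF : rename Fin.val (aeval T C) =
        aeval (fun a => (rename Fin.val (T a) : MvPolynomial ℕ ℚ)) C :=
      MvPolynomial.comp_aeval_apply T (rename Fin.val) C
    refine hs0 ℚ n t2 (by omega) _ ⟨M, fun a => rename Fin.val (T a), C, ?_, ?_, hF⟩ ?_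
    · intro a
      obtain ⟨i, hi⟩ := hT a
      show IsCl ℚ c n (rename Fin.val (T a))
      rw [hi]
      exact cl_term (A i) f (r i) (hA i) hf
    · intro s' hs'
      by_contra hcon
      push Not at hcon
      obtain ⟨en⟩ : Nonempty (Fin s'.card ≃ s') := ⟨s'.equivFin.symm⟩
      apply hdep fun a => (en (Fin.castLE hcon a) : Fin M)
      have h1 : AlgebraicIndependent ℚ fun a : Fin (k + 1 + 1) =>
          (rename Fin.val (T (en (Fin.castLE hcon a) : Fin M)) : MvPolynomial ℕ ℚ) :=
        AlgebraicIndependent.comp hs' (fun a : Fin (k + 1 + 1) => en (Fin.castLE hcon a))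
          (fun a b hab => Fin.castLE_injective hcon (en.injective hab))
      exact AlgebraicIndependent.of_comp (rename Fin.val) h1
    · intro h0
      apply hC
      apply rename_injective _ Fin.val_injective
      rw [h0, map_zero]

end Pool.Agent.PXE.H82
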