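import Mathlib
import Pool.Agent.Helper82_PXE.Px

set_option autoImplicit false

/-!
# The final theorem (from the rows `IRR` and `RES`)
-/

namespace Pool.Agent.PXE.H82

open Pool.Agent Pool.Agent.UO Pool.Agent.Helper12_FV Pool.Agent.Helper26_RS Pool.Agent.Helper78_ACIT
  Pool.Agent.Helper12_D3
open MvPolynomial

theorem fin (irr : IrrStmt) (res : ResStmt) (k c : ℕ) : ∃ t C : ℕ, ∀ (n m N b D : ℕ)
    (f : Fin m → MvPolynomial (Fin n) ℤ) (A : Fin N → MvPolynomial (Fin n) ℤ)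
    (e : Fin N → Fin m → ℕ), (∀ j, (f j).totalDegree ≤ D) → (∀ i, (A i).totalDegree ≤ D) →
    (∀ j, len (f j) ≤ 2 ^ b) → (∀ i, len (A i) ≤ 2 ^ b) → (∀ i j, e i j ≤ 2 ^ b) →
    (((∀ j, (f j).totalDegree ≤ c) ∧ ∀ i, (A i).totalDegree ≤ c) ∨
      ((∀ j, ∀ s, (pderiv s (f j)).vars.card ≤ c) ∧ ∀ i, Mon c (A i))) →
    (((∀ j, ∀ z : ℤ, MvPolynomial.C z ∣ f j → IsUnit z) ∧
        ∀ v : Fin (k + 1) → Fin N,
          ¬ AlgebraicIndependent ℤ fun a => A (v a) * ∏ j, f j ^ e (v a) j) ∨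
      ((∀ j, 1 ≤ (f j).totalDegree) ∧ (∀ j j', j ≠ j' → IsRelPrime (f j) (f j')) ∧
        ∀ v : Fin (k + 1) → Fin N,
          (∀ a b, (closeGraph e (N * (D + N * (m * D)))).Reachable (v a) (v b)) →
          ¬ AlgebraicIndependent ℤ fun a => A (v a) * ∏ j, f j ^ e (v a) j)) →
    ∀ G : List Gate, WellFormed G →
    (poly G = 0 ∨ (∑ i, A i * ∏ j, f j ^ e i j ≠ 0 ∧
        poly G ∣ MvPolynomial.rename Fin.val (∑ i, A i * ∏ j, f j ^ e i j))) →
    (G ∈ ACIT ↔ ∀ p, p.Prime → p ≤ (n + m + N + b + D + 2) ^ C →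
      ∀ β γ δ : Fin t → ZMod p,
        testValue n p (N * (D + N * (m * D)) + N) t β γ δ G = 0) := by
  obtain ⟨a1, a2, hlow⟩ := eng_low k c
  obtain ⟨b1, b2, hpx⟩ := eng_px res k (2 * c + 2)
  refine ⟨(a1 + b1) + (a2 + b2), 70 * ((a1 + b1) + (a2 + b2) + 2), ?_⟩
  intro n m N b D f A e hfD hAD hfb hAb he hcls hcase G hG hpoly
  have hf0 : ∀ j, f j ≠ 0 := by
    intro j h0
    rcases hcase with ⟨hprim, -⟩ | ⟨hdeg, -⟩
    · have := hprim j 0 (by rw [h0]; exact dvd_zero _)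
      exact not_isUnit_zero this
    · have := hdeg j
      rw [h0] at this
      simp at this
  rcases hcls with ⟨hfc, hAc⟩ | ⟨hfc, hAc⟩
  · exact main_eng k (a1 + b1) (a2 + b2) (hlow _ _ (by omega) (by omega)) n m N b D f A e
      (fun j g hg => (totalDegree_le_of_dvd_of_isDomain hg (hf0 j)).trans (hfc j)) hAc hfD hAD hfb
      hAb he hcase G hG hpoly
  · exact main_eng k (a1 + b1) (a2 + b2) (hpx _ _ (by omega) (by omega)) n m N b D f A e
      (fun j g hg => form_dvd irr (hf0 j) (hfc j) hg)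
      (fun i s hs => (hAc i s hs).trans (by omega)) hfD hAD hfb hAb he hcase G hG hpoly

end Pool.Agent.PXE.H82
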