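import Pool.Agent.Helper77_PXE.EIS
import Pool.Agent.Helper21_PXE.IRF
import Pool.Agent.Helper92_PXE.TVB
import Pool.Agent.Helper60_PXE.IRR
import Pool.Agent.Helper63_PXE.PSI
import Pool.Agent.Helper15_PXE.ELX
import Pool.Agent.Helper10_PXE.PTX
import Pool.Agent.Helper13_PXE.CPN
import Pool.Agent.Helper58_PXE.COP
import Pool.Agent.Helper58_PXE.RPQ
import Pool.Agent.Helper91_PXE.DST
import Pool.Agent.Helper20_PXE.RES
import Pool.Agent.Helper82_PXE.Fin

set_option autoImplicit false

/-!
# Squad PXE: assembly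
-/

namespace Pool.Agent.PXE

theorem aIrr : IrrStmt := H60.irr (H92.tvb (H21.irf H77.eis))

theorem aCop : CopStmt := H58.cop (H13.cpn (H15.elx H63.psii)) H10.ptx H63.psii

theorem aRes : ResStmt := H20.res aCop H58.rpq H91.dst

end Pool.Agent.PXE
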