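import Mathlib
import Pool.Agent.Helper78_ACIT.Circuit
import Pool.Agent.Helper82_PXE.All

set_option autoImplicit false

/-!
# `MP_b2b50d_lc`: black-box identity test for sums of products of powers (binary exponents) of
polynomials of bounded degree or with bounded interaction, with bounded top fan-in or bounded algebraic
rank

For fixed `k` and `c` the test applies to all circuits, of any shape and of exponential degree, whose
polynomial is zero or divides a nonzero sum `F = ∑ i < N, A_i ∏ j < m, f_j ^ e_ij`, where the exponents
are given in binary, the terms have algebraic rank at most `k` (for example `N ≤ k`), and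
(1) the `f_j` and `A_i` have degree at most `c` (depth-`4` circuits `Σ^k Π Σ Π^[c]`, with powers), or
(2) the `f_j` are polynomials of any degree in which every variable interacts with a bounded number of
variables (every partial derivative of `f_j` contains at most `c` variables; for example sums of
univariate polynomials, or sums over the edges of a graph of bounded degree of polynomials in the two
endpoints, every `f_j` with its own graph), and every monomial of `A_i` contains at most `c` variables.
If the `f_j` are nonconstant and pairwise relatively prime, then only the terms of each cluster (a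
connected component of the graph in which two terms are adjacent if all their exponents differ by at
most `B`) are required to have algebraic rank at most `k`.
-/

namespace Pool.Agent.PXE.Final

open Polynomial Pool.Agent.Helper78_ACIT

/-- The sum of the absolute values of the coefficients. -/
noncomputable def length {n : ℕ} (f : MvPolynomial (Fin n) ℤ) : ℕ :=
  ∑ d ∈ f.support, (f.coeff d).natAbs

/-- The coordinate `∑ j < t, z_j ∏ l < n, l ≠ s, (w_j - l)` for `s < n`, and `0` for `s ≥ n`. -/
def point {R : Type} [CommRing R] {t : ℕ} (n : ℕ) (w z : Fin t → R) (s : ℕ) : R :=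
  if s < n then ∑ j, z j * ∏ l ∈ (Finset.range n).erase s, (w j - (l : R)) else 0

/-- The value of the circuit `G` at the point
`x_s = ∑ j < t, (γ_j + δ_j X) ∏ l < n, l ≠ s, (β_j - l)` (`x_s = 0` for `s ≥ n`) in the finite ring
`F_p[X] / (X ^ R)`. -/
noncomputable def testValue (n p R t : ℕ) (β γ δ : Fin t → ZMod p) (G : List Gate) :
    AdjoinRoot (X ^ R : (ZMod p)[X]) :=
  out (fun s => AdjoinRoot.of _ (point n β γ s) +
    AdjoinRoot.of _ (point n β δ s) * AdjoinRoot.root _) G

/-- Two of the `N` terms are adjacent if all their `m` exponents differ by at most `B`. -/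
def closeGraph {N m : ℕ} (e : Fin N → Fin m → ℕ) (B : ℕ) : SimpleGraph (Fin N) where
  Adj i i' := i ≠ i' ∧ ∀ j, e i j ≤ e i' j + B ∧ e i' j ≤ e i j + B
  symm := ⟨fun _ _ h => ⟨h.1.symm, fun j => ⟨(h.2 j).2, (h.2 j).1⟩⟩⟩
  loopless := ⟨fun _ h => h.1 rfl⟩

/-- For all `k` and `c` there are `t` and `C` such that the following holds.  Let
`T_i = A_i ∏ j < m, f_j ^ e_ij` (`i < N`), where the `f_j` and `A_i` are polynomials of degree at most
`D` and length at most `2 ^ b` in `ℤ[x_0, ..., x_(n-1)]` and the exponents are at most `2 ^ b`, and let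
`B = N (D + N m D)`.  Suppose that all `f_j` and `A_i` have degree at most `c`, or that all partial
derivatives of the `f_j` contain at most `c` variables and all monomials of the `A_i` contain at most
`c` variables.  Suppose that the `f_j` are primitive and any `k + 1` of the `T_i` are algebraically
dependent, or that the `f_j` are nonconstant and pairwise relatively prime and any `k + 1` of the `T_i`
in one connected component of `closeGraph e B` are algebraically dependent.  Then a circuit `G` whose
polynomial is zero or divides `∑ i, T_i ≠ 0` computes zero if and only if it vanishes at all the points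
`x_s = ∑ j < t, (γ_j + δ_j X) ∏ l < n, l ≠ s, (β_j - l)` modulo `X ^ (B + N)` over `F_p`, for all primes
`p ≤ (n + m + N + b + D + 2) ^ C`. -/
theorem result (k c : ℕ) : ∃ t C : ℕ, ∀ (n m N b D : ℕ)
    (f : Fin m → MvPolynomial (Fin n) ℤ) (A : Fin N → MvPolynomial (Fin n) ℤ)
    (e : Fin N → Fin m → ℕ), (∀ j, (f j).totalDegree ≤ D) → (∀ i, (A i).totalDegree ≤ D) →
    (∀ j, length (f j) ≤ 2 ^ b) → (∀ i, length (A i) ≤ 2 ^ b) → (∀ i j, e i j ≤ 2 ^ b) →
    (((∀ j, (f j).totalDegree ≤ c) ∧ ∀ i, (A i).totalDegree ≤ c) ∨
      ((∀ j, ∀ s, (MvPolynomial.pderiv s (f j)).vars.card ≤ c) ∧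
        ∀ i, ∀ d ∈ (A i).support, d.support.card ≤ c)) →
    (((∀ j, ∀ z : ℤ, MvPolynomial.C z ∣ f j → IsUnit z) ∧
        ∀ v : Fin (k + 1) → Fin N,
          ¬ AlgebraicIndependent ℤ fun a => A (v a) * ∏ j, f j ^ e (v a) j) ∨
      ((∀ j, 1 ≤ (f j).totalDegree) ∧ (∀ j j', j ≠ j' → IsRelPrime (f j) (f j')) ∧
        ∀ v : Fin (k + 1) → Fin N,
          (∀ a b, (closeGraph e (N * (D + N * (m * D)))).Reachable (v a) (v b)) →
          ¬ AlgebraicIndependent ℤ fun a => A (v a) * ∏ j, f j ^ e (v a) j)) →
    ∀ G : List Gate, WellFormed G →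
    (poly G = 0 ∨ (∑ i, A i * ∏ j, f j ^ e i j ≠ 0 ∧
        poly G ∣ MvPolynomial.rename Fin.val (∑ i, A i * ∏ j, f j ^ e i j))) →
    (G ∈ ACIT ↔ ∀ p, p.Prime → p ≤ (n + m + N + b + D + 2) ^ C →
      ∀ β γ δ : Fin t → ZMod p,
        testValue n p (N * (D + N * (m * D)) + N) t β γ δ G = 0) :=
  PXE.H82.fin PXE.aIrr PXE.aRes k c

end Pool.Agent.PXE.Final
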